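import Mathlib

/-!
The branching expansion of the generalised Vandermonde determinant `det (z_j ^ u_i)`.
-/

open Finset

namespace Pool.Agent.Helper15

/-- the product over pairs for `Fin (n+1)` -/
theorem prod_pairs_succ {M : Type*} [CommMonoid M] (n : ℕ) (f : Fin (n + 1) → Fin (n + 1) → M) :
    ∏ i, ∏ j ∈ Ioi i, f i j =
      (∏ j : Fin n, f 0 j.succ) * ∏ i : Fin n, ∏ j ∈ Ioi i, f i.succ j.succ := by
  rw [Fin.prod_univ_succ, Fin.prod_Ioi_zero]
  congr 1
  exact Finset.prod_congr rfl fun i _ => Fin.prod_Ioi_succ _ _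

/-- the same product, split into neighbouring pairs and the others -/
theorem prod_pairs_neighbour (n : ℕ) (f : Fin (n + 1) → Fin (n + 1) → ℕ) :
    ∏ i, ∏ j ∈ Ioi i, f i j =
      (∏ i : Fin n, f i.castSucc i.succ) * ∏ i : Fin n, ∏ j ∈ Ioi i, f i.castSucc j.succ := by
  rw [Fin.prod_univ_castSucc]
  have h0 : Ioi (Fin.last n) = ∅ := by
    ext x; simp [Fin.le_last]
  rw [h0, Finset.prod_empty, mul_one, ← Finset.prod_mul_distrib]
  refine Finset.prod_congr rfl fun i _ => ?_
  have h1 : Ioi (i.castSucc) = (insert i (Ioi i)).map (Fin.succEmb n) := by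
    ext x
    simp only [mem_Ioi, mem_map, mem_insert, Fin.coe_succEmb]
    constructor
    · intro hx
      have hx0 : x ≠ 0 := by
        rintro rfl
        exact absurd hx (by simp)
      obtain ⟨y, rfl⟩ := Fin.exists_succ_eq.2 hx0
      refine ⟨y, ?_, rfl⟩
      rw [Fin.castSucc_lt_succ_iff] at hx
      rcases hx.eq_or_lt with h | h
      · left; exact h.symm
      · right; exact h
    · rintro ⟨y, hy, rfl⟩
      rw [Fin.castSucc_lt_succ_iff]
      rcases hy with rfl | h
      · exact le_refl _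
      · exact h.le
  rw [h1, Finset.prod_map, Finset.prod_insert (by simp)]
  rfl

theorem det_step (n : ℕ) (u : Fin (n + 1) → ℕ) (hu : StrictMono u) (z : Fin (n + 1) → ℂ) :
    Matrix.det (Matrix.of fun i j => z j ^ u i) =
      z 0 ^ u 0 * ((∏ j : Fin n, (z j.succ - z 0)) *
        ∑ ξ ∈ Fintype.piFinset (fun i : Fin n => Ico (u i.castSucc) (u i.succ)),
          (∏ i : Fin n, z 0 ^ (u i.succ - 1 - ξ i)) *
            Matrix.det (Matrix.of fun i j => z (Fin.succ j) ^ ξ i)) := by
  set A : Matrix (Fin (n + 1)) (Fin (n + 1)) ℂ := Matrix.of fun i j => z j ^ u i with hA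
  set B : Matrix (Fin (n + 1)) (Fin (n + 1)) ℂ := Matrix.of fun i j =>
    Fin.cases (z j ^ u 0) (fun i' => z j ^ u i'.succ -
      z 0 ^ (u i'.succ - u i'.castSucc) * z j ^ u i'.castSucc) i with hB
  have hAB : A.det = B.det := by
    refine Matrix.det_eq_of_forall_row_eq_smul_add_pred
      (fun i => z 0 ^ (u i.succ - u i.castSucc)) (fun j => ?_) (fun i j => ?_)
    · simp [hA, hB]
    · simp [hA, hB]
  rw [hAB, Matrix.det_succ_column_zero, Fin.sum_univ_succ]
  have hz : ∀ i : Fin n, B i.succ 0 = 0 := by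
    intro i
    have hlt : u i.castSucc ≤ u i.succ := (hu (Fin.castSucc_lt_succ)).le
    simp only [hB, Matrix.of_apply, Fin.cases_succ]
    rw [← pow_add, Nat.sub_add_cancel hlt, sub_self]
  simp only [hz, mul_zero, zero_mul, Finset.sum_const_zero, add_zero, Fin.val_zero, pow_zero,
    one_mul]
  have h00 : B 0 0 = z 0 ^ u 0 := by simp [hB]
  rw [h00]
  congr 1
  have hsub : B.submatrix (Fin.succAbove 0) Fin.succ = Matrix.of fun (i j : Fin n) =>
      (z j.succ - z 0) * (Matrix.of fun (i j : Fin n) =>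
        ∑ x ∈ Ico (u i.castSucc) (u i.succ), z 0 ^ (u i.succ - 1 - x) * z j.succ ^ x) i j := by
    ext i j
    have hlt : u i.castSucc ≤ u i.succ := (hu (Fin.castSucc_lt_succ)).le
    simp only [Matrix.submatrix_apply, Fin.zero_succAbove, hB, Matrix.of_apply, Fin.cases_succ]
    have := mul_geom_sum₂_Ico (z j.succ) (z 0) hlt
    rw [mul_comm (z 0 ^ _), ← this]
    congr 1
    exact Finset.sum_congr rfl fun x _ => mul_comm _ _
  rw [hsub, Matrix.det_mul_row]
  congr 1
  have hrow : (Matrix.of fun (i j : Fin n) =>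
        ∑ x ∈ Ico (u i.castSucc) (u i.succ), z 0 ^ (u i.succ - 1 - x) * z j.succ ^ x) =
      (fun i => ∑ x ∈ Ico (u i.castSucc) (u i.succ),
        (fun j : Fin n => z 0 ^ (u i.succ - 1 - x) * z j.succ ^ x)) := by
    ext i j
    simp
  rw [hrow]
  have := (Matrix.detRowAlternating (n := Fin n) (R := ℂ)).toMultilinearMap.map_sum_finset
    (fun i x => (fun j : Fin n => z 0 ^ (u i.succ - 1 - x) * z j.succ ^ x))
    (fun i : Fin n => Ico (u i.castSucc) (u i.succ))
  change Matrix.detRowAlternating.toMultilinearMap _ = _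
  rw [this]
  refine Finset.sum_congr rfl fun ξ _ => ?_
  change Matrix.det (Matrix.of fun i j => z 0 ^ (u (Fin.succ i) - 1 - ξ i) * z (Fin.succ j) ^ ξ i) = _
  exact Matrix.det_mul_column (fun i => z 0 ^ (u (Fin.succ i) - 1 - ξ i))
    (Matrix.of fun i j => z (Fin.succ j) ^ ξ i)

/-- `det (z_j ^ u_i)` is the Vandermonde product times a sum of monomials; the number of
monomials and their degrees are controlled. -/
theorem det_expansion (n : ℕ) : ∀ (u : Fin n → ℕ), StrictMono u →
    ∃ (ι : Type) (_ : Fintype ι) (e : ι → Fin n → ℕ),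
      (∀ z : Fin n → ℂ, Matrix.det (Matrix.of fun i j => z j ^ u i) =
        (∏ i, ∏ j ∈ Ioi i, (z j - z i)) * ∑ a, ∏ i, z i ^ e a i) ∧
      (∀ a, ∑ i, e a i ≤ ∑ i, u i) ∧
      Fintype.card ι ≤ ∏ i, ∏ j ∈ Ioi i, (u j - u i) := by
  induction n with
  | zero =>
    intro u _
    refine ⟨Unit, inferInstance, fun _ _ => 0, fun z => by simp, fun a => by simp, by simp⟩
  | succ n ih =>
    intro u hu
    choose ι hι e h1 h2 h3 using ih
    set box : Finset (Fin n → ℕ) :=
      Fintype.piFinset (fun i : Fin n => Ico (u i.castSucc) (u i.succ)) with hbox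
    have hmem : ∀ ξ ∈ box, ∀ i, u i.castSucc ≤ ξ i ∧ ξ i < u i.succ := by
      intro ξ hξ i
      rw [hbox, Fintype.mem_piFinset] at hξ
      exact mem_Ico.1 (hξ i)
    have hmono : ∀ ξ ∈ box, StrictMono ξ := by
      intro ξ hξ i j hij
      have hi := (hmem ξ hξ i).2
      have hj := (hmem ξ hξ j).1
      have : u i.succ ≤ u j.castSucc := hu.monotone (Fin.succ_le_castSucc_iff.2 hij)
      omega
    let instι : ∀ ξ : {ξ // ξ ∈ box}, Fintype (ι ξ.1 (hmono ξ.1 ξ.2)) :=
      fun ξ => hι ξ.1 (hmono ξ.1 ξ.2)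
    refine ⟨Σ ξ : {ξ // ξ ∈ box}, ι ξ.1 (hmono ξ.1 ξ.2), inferInstance,
      fun a => Fin.cons (u 0 + ∑ i : Fin n, (u i.succ - 1 - a.1.1 i))
        (e a.1.1 (hmono a.1.1 a.1.2) a.2), ?_, ?_, ?_⟩
    · intro z
      rw [det_step n u hu z, prod_pairs_succ, Fintype.sum_sigma, ← Finset.sum_coe_sort]
      rw [mul_left_comm, mul_assoc]
      congr 1
      rw [Finset.mul_sum, Finset.mul_sum]
      refine Finset.sum_congr rfl fun ξ _ => ?_
      rw [h1 ξ.1 (hmono ξ.1 ξ.2)]
      have h4 : ∀ (x q v s : ℂ), x * (q * (v * s)) = v * (x * q * s) := by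
        intro x q v s; ring
      rw [h4]
      congr 1
      rw [Finset.mul_sum]
      refine Finset.sum_congr rfl fun a _ => ?_
      rw [Fin.prod_univ_succ]
      simp only [Fin.cons_zero, Fin.cons_succ]
      rw [pow_add, ← Finset.prod_pow_eq_pow_sum]
    · intro a
      rw [Fin.sum_univ_succ, Fin.sum_univ_succ (f := u)]
      simp only [Fin.cons_zero, Fin.cons_succ]
      have h4 := h2 a.1.1 (hmono a.1.1 a.1.2) a.2
      have h5 : ∑ i : Fin n, (u i.succ - 1 - a.1.1 i) + ∑ i, a.1.1 i ≤ ∑ i : Fin n, u i.succ := by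
        rw [← Finset.sum_add_distrib]
        refine Finset.sum_le_sum fun i _ => ?_
        have := hmem a.1.1 a.1.2 i
        omega
      omega
    · rw [Fintype.card_sigma, prod_pairs_neighbour]
      calc ∑ ξ : {ξ // ξ ∈ box}, Fintype.card (ι ξ.1 (hmono ξ.1 ξ.2))
          ≤ ∑ ξ : {ξ // ξ ∈ box}, ∏ i : Fin n, ∏ j ∈ Ioi i, (u j.succ - u i.castSucc) := by
            refine Finset.sum_le_sum fun ξ _ => (h3 ξ.1 (hmono ξ.1 ξ.2)).trans ?_
            refine Finset.prod_le_prod' fun i _ => Finset.prod_le_prod' fun j _ => ?_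
            have hi := hmem ξ.1 ξ.2 i
            have hj := hmem ξ.1 ξ.2 j
            omega
        _ = (∏ i : Fin n, (u i.succ - u i.castSucc)) *
              ∏ i : Fin n, ∏ j ∈ Ioi i, (u j.succ - u i.castSucc) := by
            rw [Finset.sum_const, Finset.card_univ, Fintype.card_coe, hbox,
              Fintype.card_piFinset, smul_eq_mul]
            simp only [Nat.card_Ico]

end Pool.Agent.Helper15
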