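import Mathlib

/-!
The asymptotic estimate of the asymptotic expansion conjecture, as a property of a sequence.
-/

open Filter Asymptotics Finset
open scoped Real

namespace Pool.Agent.Helper15

/-- `HasExpansion N Z m c`: the sequence `k ↦ Z k` has, with `r = k + N`, an asymptotic expansion
`∑_j e^{2π i r c_j} r^{d_j/2} b_j (1 + ∑_l a_j^l r^{-l/2})` with the given finite list of phases
`c_0, ..., c_m` and integers `d_j` (so that `d_j / 2` is a half integer); the error after the terms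
`l ≤ L` is `O(r^{d/2 - (L+1)/2})`, where `d = max_j d_j`. -/
def HasExpansion (N : ℕ) (Z : ℕ → ℂ) (m : ℕ) (c : Fin (m + 1) → ℝ) : Prop :=
  ∃ (d : Fin (m + 1) → ℤ) (b : Fin (m + 1) → ℂ) (a : Fin (m + 1) → ℕ → ℂ), ∀ L : ℕ,
    (fun k : ℕ => Z k - ∑ j, Complex.exp (2 * π * Complex.I * ((k : ℂ) + N) * c j) *
        ((((k : ℝ) + N) ^ ((d j : ℝ) / 2) : ℝ) : ℂ) * b j *
        (1 + ∑ l ∈ Finset.Icc 1 L, a j l * ((((k : ℝ) + N) ^ (-(l : ℝ) / 2) : ℝ) : ℂ)))
      =O[atTop] fun k : ℕ =>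
        ((k : ℝ) + N) ^ (((univ.sup' univ_nonempty d : ℤ) : ℝ) / 2 - ((L : ℝ) + 1) / 2)

end Pool.Agent.Helper15
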