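import Mathlib
import Pool.Agent.Helper15.Expansion

open Filter Asymptotics Finset
open scoped Real Topology

namespace Pool.Agent.Helper15

/-- trigonometric polynomials with frequencies `c` -/
def IsTrig (N m : ℕ) (c : Fin (m + 1) → ℝ) (φ : ℕ → ℂ) : Prop :=
  ∃ β : Fin (m + 1) → ℂ, ∀ k : ℕ,
    φ k = ∑ j, β j * Complex.exp (2 * π * Complex.I * ((k : ℂ) + N) * c j)

theorem IsTrig.bounded {N m : ℕ} {c : Fin (m + 1) → ℝ} {φ : ℕ → ℂ} (h : IsTrig N m c φ) :
    ∃ C : ℝ, ∀ k, ‖φ k‖ ≤ C := by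
  obtain ⟨β, hβ⟩ := h
  refine ⟨∑ j, ‖β j‖, fun k => ?_⟩
  rw [hβ k]
  refine (norm_sum_le _ _).trans (Finset.sum_le_sum fun j _ => ?_)
  rw [norm_mul]
  have : (2 * π * Complex.I * ((k : ℂ) + N) * c j) = ((2 * π * ((k : ℝ) + N) * c j : ℝ) : ℂ) * Complex.I := by
    push_cast; ring
  rw [this, Complex.norm_exp_ofReal_mul_I, mul_one]

theorem IsTrig.sum {N m : ℕ} {c : Fin (m + 1) → ℝ} {ι : Type*} (s : Finset ι) {φ : ι → ℕ → ℂ}
    (h : ∀ i ∈ s, IsTrig N m c (φ i)) : IsTrig N m c (fun k => ∑ i ∈ s, φ i k) := by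
  classical
  choose! β hβ using h
  refine ⟨fun j => ∑ i ∈ s, β i j, fun k => ?_⟩
  simp_rw [Finset.sum_mul]
  rw [Finset.sum_comm]
  exact Finset.sum_congr rfl fun i hi => hβ i hi k

/-- recurrence: powers of an element of a compact torus come back to `1` -/
theorem exists_recurrence {m : ℕ} (g : Fin (m + 1) → Circle) :
    ∃ n : ℕ → ℕ, Tendsto n atTop atTop ∧ Tendsto (fun i => g ^ (n i)) atTop (𝓝 1) := by
  obtain ⟨a, ψ, hψ, hlim⟩ := CompactSpace.tendsto_subseq (fun i : ℕ => g ^ i)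
  refine ⟨fun i => ψ (2 * i) - ψ i, ?_, ?_⟩
  · refine tendsto_atTop_mono (fun i => ?_) tendsto_id
    have : ∀ j, ψ i + j ≤ ψ (i + j) := by
      intro j
      induction j with
      | zero => simp
      | succ j ih =>
        have := hψ (show i + j < i + (j + 1) by omega)
        omega
    have h2 := this i
    rw [show i + i = 2 * i by ring] at h2
    change i ≤ ψ (2 * i) - ψ i
    omega
  · have h1 : Tendsto (fun i => g ^ (ψ (2 * i))) atTop (𝓝 a) := by
      have : Tendsto (fun i : ℕ => 2 * i) atTop atTop :=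
        tendsto_id.const_mul_atTop' (by norm_num)
      exact hlim.comp this
    have h2 : Tendsto (fun i => g ^ (ψ (2 * i)) / g ^ (ψ i)) atTop (𝓝 (a / a)) :=
      h1.div' hlim
    rw [div_self'] at h2
    refine h2.congr fun i => ?_
    have hle : ψ i ≤ ψ (2 * i) := hψ.monotone (by omega)
    rw [div_eq_iff_eq_mul, ← pow_add]
    change g ^ ψ (2 * i) = g ^ (ψ (2 * i) - ψ i + ψ i)
    rw [Nat.sub_add_cancel hle]

theorem IsTrig.eq_zero {N m : ℕ} {c : Fin (m + 1) → ℝ} {φ : ℕ → ℂ} (h : IsTrig N m c φ)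
    (h0 : Tendsto φ atTop (𝓝 0)) (k : ℕ) : φ k = 0 := by
  obtain ⟨β, hβ⟩ := h
  set g : Fin (m + 1) → Circle := fun j => Circle.exp (2 * π * c j) with hg
  obtain ⟨n, hn, hn1⟩ := exists_recurrence g
  have key : ∀ i, φ (k + n i) = ∑ j, β j * Complex.exp (2 * π * Complex.I * ((k : ℂ) + N) * c j) *
      (((g ^ (n i)) j : Circle) : ℂ) := by
    intro i
    rw [hβ]
    refine Finset.sum_congr rfl fun j _ => ?_
    have : (((g ^ (n i)) j : Circle) : ℂ) = Complex.exp ((n i : ℂ) * (2 * π * c j * Complex.I)) := by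
      simp only [hg, Pi.pow_apply, Circle.coe_pow, Circle.coe_exp]
      rw [← Complex.exp_nat_mul]
      push_cast
      ring_nf
    rw [this, mul_assoc (β j), ← Complex.exp_add]
    congr 2
    push_cast
    ring
  have h1 : Tendsto (fun i => φ (k + n i)) atTop (𝓝 0) := by
    refine h0.comp (tendsto_atTop_mono (fun i => ?_) hn)
    omega
  have h2 : Tendsto (fun i => φ (k + n i)) atTop (𝓝 (φ k)) := by
    have : φ k = ∑ j, β j * Complex.exp (2 * π * Complex.I * ((k : ℂ) + N) * c j) *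
        (((1 : Fin (m + 1) → Circle) j : Circle) : ℂ) := by
      rw [hβ]
      refine Finset.sum_congr rfl fun j _ => ?_
      simp
    rw [this]
    simp_rw [key]
    refine tendsto_finsetSum _ fun j _ => ?_
    refine Tendsto.const_mul _ ?_
    have hj := (tendsto_pi_nhds.1 hn1) j
    exact (continuous_subtype_val.tendsto _).comp hj
  exact tendsto_nhds_unique h2 h1

theorem R_pos {N : ℕ} (hN : 1 ≤ N) (k : ℕ) : (1 : ℝ) ≤ (k : ℝ) + N := by
  have : (1 : ℝ) ≤ N := by exact_mod_cast hN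
  have : (0 : ℝ) ≤ k := Nat.cast_nonneg k
  linarith

theorem tendsto_R (N : ℕ) : Tendsto (fun k : ℕ => (k : ℝ) + N) atTop atTop :=
  tendsto_atTop_add_const_right _ _ tendsto_natCast_atTop_atTop

theorem not_isBigO {N : ℕ} (hN : 1 ≤ N) {Z : ℕ → ℂ} {D : ℤ}
    (hlow : Tendsto (fun k : ℕ => ‖Z k‖ / ((k : ℝ) + N) ^ ((D : ℝ) / 2)) atTop atTop) :
    ¬ (Z =O[atTop] fun k : ℕ => ((k : ℝ) + N) ^ ((D : ℝ) / 2)) := by
  intro h
  obtain ⟨C, hC⟩ := h.bound
  have h2 := (hlow.eventually_gt_atTop C).and hC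
  obtain ⟨k, hk1, hk2⟩ := h2.exists
  have hpos : 0 < ((k : ℝ) + N) ^ ((D : ℝ) / 2) :=
    Real.rpow_pos_of_pos (by linarith [R_pos hN k]) _
  rw [Real.norm_of_nonneg hpos.le] at hk2
  rw [lt_div_iff₀ hpos] at hk1
  linarith

theorem no_expansion_core {N m : ℕ} (hN : 1 ≤ N) {c : Fin (m + 1) → ℝ} {Z : ℕ → ℂ} {D : ℤ}
    (hlow : Tendsto (fun k : ℕ => ‖Z k‖ / ((k : ℝ) + N) ^ ((D : ℝ) / 2)) atTop atTop)
    (hup : Tendsto (fun k : ℕ => ‖Z k‖ / ((k : ℝ) + N) ^ (((D : ℝ) + 1) / 2)) atTop (𝓝 0))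
    (n : ℕ) : ∀ (S : ℤ) (φ : ℕ → ℕ → ℂ), (∀ i, IsTrig N m c (φ i)) →
      ¬ ((fun k : ℕ => Z k -
          ∑ i ∈ range n, ((((k : ℝ) + N) ^ (((S : ℝ) - i) / 2) : ℝ) : ℂ) * φ i k)
        =O[atTop] fun k : ℕ => ((k : ℝ) + N) ^ ((D : ℝ) / 2)) := by
  induction n with
  | zero =>
    intro S φ _ h
    simp only [range_zero, sum_empty, sub_zero] at h
    exact not_isBigO hN hlow h
  | succ n ih =>
    intro S φ hφ h
    by_cases hS : S ≤ D
    · apply not_isBigO hN hlow
      have h2 : (fun k : ℕ => ∑ i ∈ range (n + 1),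
          ((((k : ℝ) + N) ^ (((S : ℝ) - i) / 2) : ℝ) : ℂ) * φ i k) =O[atTop]
            fun k : ℕ => ((k : ℝ) + N) ^ ((D : ℝ) / 2) := by
        refine IsBigO.fun_sum fun i _ => ?_
        obtain ⟨C, hC⟩ := (hφ i).bounded
        refine IsBigO.of_bound C (Eventually.of_forall fun k => ?_)
        have h1 := R_pos hN k
        rw [norm_mul, Complex.norm_real, Real.norm_of_nonneg (Real.rpow_nonneg (by linarith) _),
          Real.norm_of_nonneg (Real.rpow_nonneg (by linarith) _), mul_comm]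
        have hSD : (S : ℝ) ≤ D := by exact_mod_cast hS
        have hi : (0 : ℝ) ≤ i := Nat.cast_nonneg i
        have h3 : ((k : ℝ) + N) ^ (((S : ℝ) - i) / 2) ≤ ((k : ℝ) + N) ^ ((D : ℝ) / 2) :=
          Real.rpow_le_rpow_of_exponent_le h1 (by linarith)
        have hC0 : 0 ≤ ‖φ i k‖ := norm_nonneg _
        exact mul_le_mul (hC k) h3 (Real.rpow_nonneg (by linarith) _) (hC0.trans (hC k))
      have h3 := h.add h2
      refine h3.congr_left fun k => ?_
      simp
    · have hS' : D + 1 ≤ S := by omega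
      have hSr : (D : ℝ) + 1 ≤ S := by exact_mod_cast hS'
      -- the leading trigonometric polynomial tends to zero
      have hexp : ∀ k : ℕ, φ 0 k =
          ((((k : ℝ) + N) ^ (-(S : ℝ) / 2) : ℝ) : ℂ) * Z k -
          (∑ i ∈ range n, ((((k : ℝ) + N) ^ (-((i : ℝ) + 1) / 2) : ℝ) : ℂ) * φ (i + 1) k) -
          ((((k : ℝ) + N) ^ (-(S : ℝ) / 2) : ℝ) : ℂ) * (Z k -
          ∑ i ∈ range (n + 1), ((((k : ℝ) + N) ^ (((S : ℝ) - i) / 2) : ℝ) : ℂ) * φ i k) := by
        intro k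
        have h1 : (0 : ℝ) < (k : ℝ) + N := by linarith [R_pos hN k]
        rw [Finset.sum_range_succ', mul_sub, mul_add, Finset.mul_sum]
        have e0 : ((((k : ℝ) + N) ^ (-(S : ℝ) / 2) : ℝ) : ℂ) *
            (((((k : ℝ) + N) ^ (((S : ℝ) - ((0 : ℕ) : ℝ)) / 2) : ℝ) : ℂ) * φ 0 k) = φ 0 k := by
          rw [← mul_assoc, ← Complex.ofReal_mul, ← Real.rpow_add h1]
          have : -(S : ℝ) / 2 + ((S : ℝ) - ((0 : ℕ) : ℝ)) / 2 = 0 := by push_cast; ring
          rw [this, Real.rpow_zero]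
          simp
        rw [e0]
        have e1 : ∀ i ∈ range n, ((((k : ℝ) + N) ^ (-(S : ℝ) / 2) : ℝ) : ℂ) *
            (((((k : ℝ) + N) ^ (((S : ℝ) - ((i + 1 : ℕ) : ℝ)) / 2) : ℝ) : ℂ) * φ (i + 1) k) =
            ((((k : ℝ) + N) ^ (-((i : ℝ) + 1) / 2) : ℝ) : ℂ) * φ (i + 1) k := by
          intro i _
          rw [← mul_assoc, ← Complex.ofReal_mul, ← Real.rpow_add h1]
          congr 3
          push_cast
          ring
        rw [Finset.sum_congr rfl e1]
        ring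
      have hR := tendsto_R N
      have t1 : Tendsto (fun k : ℕ => ((((k : ℝ) + N) ^ (-(S : ℝ) / 2) : ℝ) : ℂ) * Z k)
          atTop (𝓝 0) := by
        rw [tendsto_zero_iff_norm_tendsto_zero]
        refine squeeze_zero (fun k => norm_nonneg _) (fun k => ?_) hup
        have h1 := R_pos hN k
        rw [norm_mul, Complex.norm_real, Real.norm_of_nonneg (Real.rpow_nonneg (by linarith) _),
          mul_comm, div_eq_mul_inv ‖Z k‖ _, ← Real.rpow_neg (by linarith)]
        refine mul_le_mul_of_nonneg_left ?_ (norm_nonneg _)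
        exact Real.rpow_le_rpow_of_exponent_le h1 (by linarith)
      have t2 : Tendsto (fun k : ℕ => ∑ i ∈ range n,
          ((((k : ℝ) + N) ^ (-((i : ℝ) + 1) / 2) : ℝ) : ℂ) * φ (i + 1) k) atTop (𝓝 0) := by
        have : (0 : ℂ) = ∑ i ∈ range n, (0 : ℂ) := by simp
        rw [this]
        refine tendsto_finsetSum _ fun i _ => ?_
        obtain ⟨C, hC⟩ := (hφ (i + 1)).bounded
        have hz : Tendsto (fun k : ℕ => ((k : ℝ) + N) ^ (-((i : ℝ) + 1) / 2) * C) atTop (𝓝 (0 * C)) := by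
          refine Tendsto.mul_const _ ?_
          have hpos : (0 : ℝ) < ((i : ℝ) + 1) / 2 := by positivity
          have := (tendsto_rpow_neg_atTop hpos).comp hR
          refine this.congr fun k => ?_
          simp only [Function.comp]
          congr 1
          ring
        rw [zero_mul] at hz
        rw [tendsto_zero_iff_norm_tendsto_zero]
        refine squeeze_zero (fun k => norm_nonneg _) (fun k => ?_) hz
        have h1 := R_pos hN k
        rw [norm_mul, Complex.norm_real, Real.norm_of_nonneg (Real.rpow_nonneg (by linarith) _)]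
        exact mul_le_mul_of_nonneg_left (hC k) (Real.rpow_nonneg (by linarith) _)
      have t3 : Tendsto (fun k : ℕ => ((((k : ℝ) + N) ^ (-(S : ℝ) / 2) : ℝ) : ℂ) * (Z k -
          ∑ i ∈ range (n + 1), ((((k : ℝ) + N) ^ (((S : ℝ) - i) / 2) : ℝ) : ℂ) * φ i k))
          atTop (𝓝 0) := by
        have hO : (fun k : ℕ => ((((k : ℝ) + N) ^ (-(S : ℝ) / 2) : ℝ) : ℂ) * (Z k -
          ∑ i ∈ range (n + 1), ((((k : ℝ) + N) ^ (((S : ℝ) - i) / 2) : ℝ) : ℂ) * φ i k))
          =O[atTop] fun k : ℕ => ((k : ℝ) + N) ^ (-(S : ℝ) / 2) * ((k : ℝ) + N) ^ ((D : ℝ) / 2) := by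
          refine IsBigO.mul ?_ h
          refine IsBigO.of_bound 1 (Eventually.of_forall fun k => ?_)
          rw [Complex.norm_real, one_mul]
        refine hO.trans_tendsto ?_
        have hpos : (0 : ℝ) < ((S : ℝ) - D) / 2 := by linarith
        have := (tendsto_rpow_neg_atTop hpos).comp hR
        refine this.congr fun k => ?_
        have h1 := R_pos hN k
        rw [← Real.rpow_add (by linarith)]
        simp only [Function.comp]
        congr 1
        ring
      have hφ0 : Tendsto (φ 0) atTop (𝓝 0) := by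
        have := (t1.sub t2).sub t3
        simp only [sub_zero] at this
        exact this.congr fun k => (hexp k).symm
      have hzero : ∀ k, φ 0 k = 0 := (hφ 0).eq_zero hφ0
      refine ih (S - 1) (fun i => φ (i + 1)) (fun i => hφ (i + 1)) ?_
      refine h.congr_left fun k => ?_
      rw [Finset.sum_range_succ', hzero k, mul_zero, add_zero]
      congr 1
      refine Finset.sum_congr rfl fun i _ => ?_
      congr 3
      push_cast
      ring

/-- If `|Z k|` grows faster than `r^(D/2)` but slower than `r^((D+1)/2)`, then `Z` has no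
expansion in half-integer powers with finitely many phases. -/
theorem no_expansion {N m : ℕ} (hN : 1 ≤ N) {c : Fin (m + 1) → ℝ} {Z : ℕ → ℂ} (D : ℤ)
    (hlow : Tendsto (fun k : ℕ => ‖Z k‖ / ((k : ℝ) + N) ^ ((D : ℝ) / 2)) atTop atTop)
    (hup : Tendsto (fun k : ℕ => ‖Z k‖ / ((k : ℝ) + N) ^ (((D : ℝ) + 1) / 2)) atTop (𝓝 0)) :
    ¬ HasExpansion N Z m c := by
  rintro ⟨d, b, a, h⟩
  set M : ℤ := univ.sup' univ_nonempty d with hM
  have hdM : ∀ j, d j ≤ M := fun j => Finset.le_sup' d (mem_univ j)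
  obtain ⟨L, hL⟩ : ∃ L : ℕ, M - (L + 1) ≤ D := ⟨(M - D).toNat, by omega⟩
  have hL' := h L
  -- the terms
  set a' : Fin (m + 1) → ℕ → ℂ := fun j l => if l = 0 then 1 else a j l with ha'
  set T : Finset (Fin (m + 1) × ℕ) := univ ×ˢ range (L + 1) with hT
  set ex : Fin (m + 1) × ℕ → ℤ := fun t => d t.1 - t.2 with hex
  set e : Fin (m + 1) → ℕ → ℂ := fun j k =>
    Complex.exp (2 * π * Complex.I * ((k : ℂ) + N) * c j) with he
  have hF : ∀ k : ℕ, ∑ j, Complex.exp (2 * π * Complex.I * ((k : ℂ) + N) * c j) *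
        ((((k : ℝ) + N) ^ ((d j : ℝ) / 2) : ℝ) : ℂ) * b j *
        (1 + ∑ l ∈ Finset.Icc 1 L, a j l * ((((k : ℝ) + N) ^ (-(l : ℝ) / 2) : ℝ) : ℂ)) =
        ∑ t ∈ T, ((((k : ℝ) + N) ^ ((ex t : ℝ) / 2) : ℝ) : ℂ) * (b t.1 * a' t.1 t.2 * e t.1 k) := by
    intro k
    have h1 : (0 : ℝ) < (k : ℝ) + N := by linarith [R_pos hN k]
    rw [hT, Finset.sum_product]
    refine Finset.sum_congr rfl fun j _ => ?_
    have h2 : (1 + ∑ l ∈ Finset.Icc 1 L, a j l * ((((k : ℝ) + N) ^ (-(l : ℝ) / 2) : ℝ) : ℂ)) =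
        ∑ l ∈ range (L + 1), a' j l * ((((k : ℝ) + N) ^ (-(l : ℝ) / 2) : ℝ) : ℂ) := by
      rw [Finset.sum_range_succ', add_comm]
      congr 1
      · rw [show Finset.Icc 1 L = Finset.Ico 1 (L + 1) from rfl, Finset.sum_Ico_eq_sum_range]
        refine Finset.sum_congr (by simp) fun l _ => ?_
        simp only [ha', Nat.add_eq_zero_iff, one_ne_zero, and_false, if_false, add_comm 1 l]
      · simp [ha']
    rw [h2, Finset.mul_sum]
    refine Finset.sum_congr rfl fun l _ => ?_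
    have h3 : ((((k : ℝ) + N) ^ ((ex (j, l) : ℝ) / 2) : ℝ) : ℂ) =
        ((((k : ℝ) + N) ^ ((d j : ℝ) / 2) : ℝ) : ℂ) * ((((k : ℝ) + N) ^ (-(l : ℝ) / 2) : ℝ) : ℂ) := by
      rw [← Complex.ofReal_mul, ← Real.rpow_add h1]
      congr 2
      simp only [hex]
      push_cast
      ring
    rw [h3]
    ring
  set ix : Fin (m + 1) × ℕ → ℕ := fun t => (M - ex t).toNat with hix
  set nn : ℕ := ∑ t ∈ T, ix t + 1 with hnn
  have hmaps : ∀ t ∈ T, ix t ∈ range nn := by
    intro t ht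
    rw [Finset.mem_range, hnn]
    have := Finset.single_le_sum (f := ix) (fun _ _ => Nat.zero_le _) ht
    omega
  set φ : ℕ → ℕ → ℂ := fun i k => ∑ t ∈ T with ix t = i, b t.1 * a' t.1 t.2 * e t.1 k with hφ
  have hφt : ∀ i, IsTrig N m c (φ i) := by
    intro i
    refine IsTrig.sum _ fun t _ => ?_
    refine ⟨Pi.single t.1 (b t.1 * a' t.1 t.2), fun k => ?_⟩
    rw [Finset.sum_eq_single t.1]
    · simp [he]
    · intro j _ hj
      simp [hj]
    · intro hh
      exact absurd (mem_univ _) hh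
  refine no_expansion_core hN hlow hup nn M φ hφt ?_
  have hgroup : ∀ k : ℕ, ∑ t ∈ T, ((((k : ℝ) + N) ^ ((ex t : ℝ) / 2) : ℝ) : ℂ) *
      (b t.1 * a' t.1 t.2 * e t.1 k) =
      ∑ i ∈ range nn, ((((k : ℝ) + N) ^ (((M : ℝ) - i) / 2) : ℝ) : ℂ) * φ i k := by
    intro k
    rw [← Finset.sum_fiberwise_of_maps_to hmaps]
    refine Finset.sum_congr rfl fun i _ => ?_
    rw [hφ, Finset.mul_sum]
    refine Finset.sum_congr rfl fun t ht => ?_
    rw [Finset.mem_filter] at ht
    have hle : ex t ≤ M := by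
      have := hdM t.1
      simp only [hex]
      omega
    have h2 : (ex t : ℤ) = M - i := by
      have := ht.2
      simp only [hix] at this
      omega
    have h3 : (ex t : ℝ) = (M : ℝ) - i := by
      rw [h2]; push_cast; ring
    rw [h3]
  have h4 : (fun k : ℕ => Z k -
      ∑ i ∈ range nn, ((((k : ℝ) + N) ^ (((M : ℝ) - i) / 2) : ℝ) : ℂ) * φ i k) =O[atTop]
      fun k : ℕ => ((k : ℝ) + N) ^ ((M : ℝ) / 2 - ((L : ℝ) + 1) / 2) := by
    refine hL'.congr_left fun k => ?_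
    rw [hF k, hgroup k]
  refine h4.trans (IsBigO.of_bound 1 (Eventually.of_forall fun k => ?_))
  have h1 := R_pos hN k
  rw [one_mul, Real.norm_of_nonneg (Real.rpow_nonneg (by linarith) _),
    Real.norm_of_nonneg (Real.rpow_nonneg (by linarith) _)]
  refine Real.rpow_le_rpow_of_exponent_le h1 ?_
  have : (M : ℝ) - (L + 1) ≤ D := by exact_mod_cast hL
  linarith

end Pool.Agent.Helper15
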