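import Mathlib
import Pool.Agent.Helper14.FatouDefs
import Pool.Agent.Helper14.Fatou
import Pool.Agent.Collatz3.PRAll
import Pool.Agent.Collatz3.PRSift

set_option autoImplicit false

namespace Pool.Agent.Results.MP_071ec9_an.SiftedSets

open Pool.Agent.Helper14 (T f₀ fatouComponent IsWanderingDomain f₀_iter_intCast intWandering_congr
  abs_le_finite)

/-- There is an absolute constant `c > 0` with the following property. For all `κ` and `ε > 0` there
is `C > 0` such that for all real `M ≥ 1`, all `2 ≤ z ≤ X` and all sets `Ω p`, `p` prime, of at most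
`κ` and fewer than `p` residue classes modulo `p`: consider the integers `n` with `|n| ≤ X` which
avoid `Ω p` for all primes `p < z`, `p < |n|`. All of them but at most
`C X ∏_{p < z} (1 - |Ω p| / p) M ^ (-c)` have an iterate `f₀^j(n) = m` with
`j ≤ (2 / log (4/3) + ε) log X + C log M` and `|m| ≤ M`, and then the Fatou component of `n` is a
wandering domain of `f₀` if and only if that of `m` is.

For `Ω p = {0}` and `z = ⌊X⌋` these `n` are `0`, `1`, `-1` and the `p`, `-p` with `p ≤ X` a prime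
number, and the product is of the order of `1 / log X`. -/
theorem result :
    ∃ c : ℝ, 0 < c ∧ ∀ κ : ℕ, ∀ ε : ℝ, 0 < ε → ∃ C : ℝ, 0 < C ∧
      ∀ (M X : ℝ) (z : ℕ) (Ω : (p : ℕ) → Finset (ZMod p)), 1 ≤ M → 2 ≤ z → (z : ℝ) ≤ X →
        (∀ p : ℕ, p.Prime → (Ω p).card ≤ κ ∧ (Ω p).card < p) →
        (Set.ncard {n : ℤ | |(n : ℝ)| ≤ X ∧
          (∀ p : ℕ, p.Prime → p < z → p < n.natAbs → (n : ZMod p) ∉ Ω p) ∧
          ¬ ∃ (j : ℕ) (m : ℤ),
            (j : ℝ) ≤ (2 / Real.log (4 / 3) + ε) * Real.log X + C * Real.log M ∧ |(m : ℝ)| ≤ M ∧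
            f₀^[j] (n : ℂ) = (m : ℂ) ∧
            (IsWanderingDomain f₀ (fatouComponent f₀ (n : ℂ)) ↔
              IsWanderingDomain f₀ (fatouComponent f₀ (m : ℂ)))} : ℝ) ≤
        C * X * (∏ p ∈ (Finset.range z).filter Nat.Prime, (1 - ((Ω p).card : ℝ) / p)) *
          M ^ (-c) := by
  obtain ⟨c, hc, h⟩ := Pool.Agent.Collatz3.PR.sift_of_main Pool.Agent.Collatz3.PR.all
    Pool.Agent.Collatz3.PR.thm_VL Pool.Agent.Collatz3.PR.thm_VC
  refine ⟨c, hc, fun κ ε hε => ?_⟩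
  obtain ⟨C, hC, h⟩ := h κ ε hε
  refine ⟨C, hC, fun M X z Ω hM hz hzX hΩ => ?_⟩
  -- the classes as natural numbers
  obtain ⟨O, hO⟩ : ∃ O : ℕ → Finset ℕ, O = fun p => (Ω p).image ZMod.val := ⟨_, rfl⟩
  have hcard : ∀ p : ℕ, p.Prime → (O p).card = (Ω p).card := by
    intro p hp
    haveI : NeZero p := ⟨hp.ne_zero⟩
    rw [hO]
    exact Finset.card_image_of_injective _ (ZMod.val_injective p)
  have hmem : ∀ p : ℕ, p.Prime → ∀ n : ℤ, ((n % (p : ℤ)).toNat ∈ O p ↔ (n : ZMod p) ∈ Ω p) := by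
    intro p hp n
    haveI : NeZero p := ⟨hp.ne_zero⟩
    have h0 : (((n : ZMod p).val : ℕ) : ℤ) = n % (p : ℤ) := ZMod.val_intCast n
    have h1 : (n % (p : ℤ)).toNat = (n : ZMod p).val := by omega
    rw [h1, hO, Finset.mem_image]
    constructor
    · rintro ⟨a, ha, hab⟩
      rwa [← ZMod.val_injective p hab]
    · intro ha
      exact ⟨_, ha, rfl⟩
  have hSys : Pool.Agent.Helper90.Straus.Sys κ O := by
    intro p hp
    rw [hcard p hp]
    refine ⟨?_, hΩ p hp⟩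
    intro a ha
    haveI : NeZero p := ⟨hp.ne_zero⟩
    rw [hO, Finset.mem_image] at ha
    obtain ⟨b, _, hb⟩ := ha
    rw [Finset.mem_range, ← hb]
    exact ZMod.val_lt b
  have hprod : Pool.Agent.Collatz3.PR.VV O z =
      ∏ p ∈ (Finset.range z).filter Nat.Prime, (1 - ((Ω p).card : ℝ) / p) := by
    unfold Pool.Agent.Collatz3.PR.VV Pool.Agent.Helper90.Straus.g Pool.Agent.Helper90.Straus.pr
    have hset : (Finset.Ico 2 z).filter Nat.Prime = (Finset.range z).filter Nat.Prime := by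
      ext p
      rw [Finset.mem_filter, Finset.mem_filter, Finset.mem_Ico, Finset.mem_range]
      exact ⟨fun h => ⟨h.1.2, h.2⟩, fun h => ⟨⟨h.2.two_le, h.1⟩, h.2⟩⟩
    rw [hset]
    apply Finset.prod_congr rfl
    intro p hp
    rw [hcard p (Finset.mem_filter.1 hp).2]
  have h1 := h M X z O hM hz hzX hSys
  rw [hprod] at h1
  refine le_trans ?_ h1
  -- from the Fatou components to the map
  have hsub : {n : ℤ | |(n : ℝ)| ≤ X ∧
      (∀ p : ℕ, p.Prime → p < z → p < n.natAbs → (n : ZMod p) ∉ Ω p) ∧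
      ¬ ∃ (j : ℕ) (m : ℤ),
        (j : ℝ) ≤ (2 / Real.log (4 / 3) + ε) * Real.log X + C * Real.log M ∧ |(m : ℝ)| ≤ M ∧
        f₀^[j] (n : ℂ) = (m : ℂ) ∧
        (IsWanderingDomain f₀ (fatouComponent f₀ (n : ℂ)) ↔
          IsWanderingDomain f₀ (fatouComponent f₀ (m : ℂ)))} ⊆
      {n : ℤ | |(n : ℝ)| ≤ X ∧ Pool.Agent.Collatz3.PR.Sf' O z n ∧ ∀ j : ℕ,
        (j : ℝ) ≤ (2 / Real.log (4 / 3) + ε) * Real.log X + C * Real.log M →
          M < |((T^[j] n : ℤ) : ℝ)|} := by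
    rintro n ⟨h2, h3, h4⟩
    refine ⟨h2, ?_, fun j hj => ?_⟩
    · intro p hp hpz hpn
      rw [hmem p hp n]
      exact h3 p hp hpz hpn
    · by_contra hcon
      push Not at hcon
      exact h4 ⟨j, T^[j] n, hj, hcon, f₀_iter_intCast n j,
        intWandering_congr (k := j) (l := 0) rfl⟩
  have hfin : {n : ℤ | |(n : ℝ)| ≤ X ∧ Pool.Agent.Collatz3.PR.Sf' O z n ∧ ∀ j : ℕ,
      (j : ℝ) ≤ (2 / Real.log (4 / 3) + ε) * Real.log X + C * Real.log M →
        M < |((T^[j] n : ℤ) : ℝ)|}.Finite :=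
    (abs_le_finite X).subset fun _ h => h.1
  exact_mod_cast Set.ncard_le_ncard hsub hfin

end Pool.Agent.Results.MP_071ec9_an.SiftedSets
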